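import Pool.Agent.Helper98.LM.St

/-!
# Project LM (MP_d57c14_nt), module MO1: the first moment
-/

set_option autoImplicit false

namespace Pool.Agent.Helper99.LM

open Finset
open Pool.Agent.Helper98.LM
open Pool.Agent.Helper18.TR (StFL)
open Pool.Agent.Helper15.AB (StMT)
open Pool.Agent.Helper30.LQ (StMR4)

private theorem memS (P a k l m : ℕ) (hl : 0 < l) :
    m % l ∈ SS P a k l ↔ (l : ℤ) ∣ fz ((a : ℤ) + P * m) k := by
  unfold SS
  rw [mem_filter, mem_range]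
  have h1 : (l : ℤ) ∣ fz ((a : ℤ) + P * m) k - fz ((a : ℤ) + P * ((m % l : ℕ) : ℤ)) k := by
    have h2 : (m : ℤ) = ((m % l : ℕ) : ℤ) + l * ((m / l : ℕ) : ℤ) := by
      exact_mod_cast (Nat.mod_add_div m l).symm
    unfold fz
    refine ⟨P * ((m / l : ℕ) : ℤ) * (((a : ℤ) + P * m) + (a + P * ((m % l : ℕ) : ℤ)) - k), ?_⟩
    linear_combination
      ((P : ℤ) * (((a : ℤ) + P * m) + (a + P * ((m % l : ℕ) : ℤ)) - k)) * h2
  constructor
  · rintro ⟨_, h⟩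
    have := dvd_add h1 h
    rwa [sub_add_cancel] at this
  · intro h
    refine ⟨Nat.mod_lt _ hl, ?_⟩
    have := dvd_sub h h1
    rwa [sub_sub_cancel] at this

private theorem swp (p w P a r J M : ℕ) : (∑ m ∈ Icc 1 M, (XX p w P a r J m : ℝ)) =
    ∑ j ∈ Icc 1 J, (((Icc 1 M).filter (fun m : ℕ => ∀ l ∈ QQ p w,
      ¬ (l : ℤ) ∣ fz ((a : ℤ) + P * m) ((r : ℤ) + P * j))).card : ℝ) := by
  unfold XX
  simp only [card_filter]
  push_cast
  exact sum_comm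

private theorem memQ (p w l : ℕ) (hp : 7 ≤ p) (h : l ∈ QQ p w) :
    l.Prime ∧ 8 ≤ l ∧ l ≤ w ∧ p < l := by
  unfold QQ at h
  rw [mem_filter, mem_Ioc] at h
  exact ⟨h.2, by omega, h.1.2, h.1.1⟩

private theorem cnt (p w P a k M : ℕ) (hp : 7 ≤ p) (hlP : ∀ l : ℕ, l.Prime → l ∣ P → l ≤ p)
    (hw : 2 ≤ w) (hL : StLOC) (ε : ℝ) (B : ℕ)
    (hB : ∀ w M : ℕ, 2 ≤ w → ∀ (Q : Finset ℕ) (S : ℕ → Finset ℕ),
      (∀ l ∈ Q, l.Prime ∧ 8 ≤ l ∧ l ≤ w) → (∀ l ∈ Q, (∀ s ∈ S l, s < l) ∧ (S l).card ≤ 4) →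
      |(((Icc 1 M).filter (fun m : ℕ => ∀ l ∈ Q, m % l ∉ S l)).card : ℝ) -
        M * ∏ l ∈ Q, (1 - ((S l).card : ℝ) / l)| ≤
        ε * (M * ∏ l ∈ Q, (1 - ((S l).card : ℝ) / l)) + (w : ℝ) ^ B) :
    |(((Icc 1 M).filter (fun m : ℕ => ∀ l ∈ QQ p w,
      ¬ (l : ℤ) ∣ fz ((a : ℤ) + P * m) (k : ℤ))).card : ℝ) -
      M * ∏ l ∈ QQ p w, (1 - ((SS P a k l).card : ℝ) / l)| ≤
      ε * (M * ∏ l ∈ QQ p w, (1 - ((SS P a k l).card : ℝ) / l)) + (w : ℝ) ^ B := by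
  have h := hB w M hw (QQ p w) (SS P a k) (fun l hl => by
    have := memQ p w l hp hl; exact ⟨this.1, this.2.1, this.2.2.1⟩) (fun l hl => by
    obtain ⟨q1, q2, q3, q4⟩ := memQ p w l hp hl
    refine ⟨fun s hs => ?_, ?_⟩
    · unfold SS at hs
      exact mem_range.1 (mem_filter.1 hs).1
    · have := (hL P a l q1 (by omega) (fun hd => by have := hlP l q1 hd; omega)).1 k
      omega)
  have e : (Icc 1 M).filter (fun m : ℕ => ∀ l ∈ QQ p w,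
      ¬ (l : ℤ) ∣ fz ((a : ℤ) + P * m) (k : ℤ)) =
      (Icc 1 M).filter (fun m : ℕ => ∀ l ∈ QQ p w, m % l ∉ SS P a k l) := by
    apply filter_congr
    intro m _
    refine forall₂_congr fun l hl => ?_
    rw [memS P a k l m (by have := memQ p w l hp hl; omega)]
  rw [e]
  exact h

private theorem loc (p w P a k : ℕ) (hp : 7 ≤ p) (hlP : ∀ l : ℕ, l.Prime → l ∣ P → l ≤ p)
    (hL : StLOC) (l : ℕ) (hl : l ∈ QQ p w) :
    0 ≤ 1 - ((SS P a k l).card : ℝ) / l ∧ 0 ≤ 1 - (rh l : ℝ) / l ∧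
    (1 - (rh l : ℝ) / l ≤ (1 - ((SS P a k l).card : ℝ) / l) *
      (if l ∣ k then (1 + 8 / (l : ℝ)) else 1)) ∧
    (1 - ((SS P a k l).card : ℝ) / l ≤ (1 - (rh l : ℝ) / l) *
      (if l ∣ k then (1 + 8 / (l : ℝ)) else 1)) := by
  obtain ⟨q1, q2, q3, q4⟩ := memQ p w l hp hl
  obtain ⟨L1, L2, L3, _⟩ := hL P a l q1 (by omega) (fun hd => by have := hlP l q1 hd; omega)
  have hl8 : (8 : ℝ) ≤ l := by exact_mod_cast q2
  have hl0 : (0 : ℝ) < l := by linarith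
  have hr : (rh l : ℝ) ≤ 2 ∧ (0 : ℝ) ≤ rh l := by
    refine ⟨?_, Nat.cast_nonneg _⟩
    unfold rh
    split_ifs <;> norm_num
  have hc : ((SS P a k l).card : ℝ) ≤ 2 := by exact_mod_cast L1 k
  have hc0 : (0 : ℝ) ≤ ((SS P a k l).card : ℝ) := Nat.cast_nonneg _
  have b1 : (rh l : ℝ) / l ≤ 2 / l := div_le_div_of_nonneg_right hr.1 hl0.le
  have b2 : ((SS P a k l).card : ℝ) / l ≤ 2 / l := div_le_div_of_nonneg_right hc hl0.le
  have b3 : (2 : ℝ) / l ≤ 1 := by rw [div_le_one hl0]; linarith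
  have b4 : 0 ≤ (rh l : ℝ) / l := div_nonneg hr.2 hl0.le
  have b5 : 0 ≤ ((SS P a k l).card : ℝ) / l := div_nonneg hc0 hl0.le
  refine ⟨by linarith, by linarith, ?_, ?_⟩
  · split_ifs with hk
    · have hc1 : ((SS P a k l).card : ℝ) ≤ 1 := by exact_mod_cast L2 k hk
      have b6 : ((SS P a k l).card : ℝ) / l ≤ 1 / l := div_le_div_of_nonneg_right hc1 hl0.le
      have b7 : (1 : ℝ) ≤ (1 - 1 / l) * (1 + 8 / l) := by
        have : (1 - 1 / (l : ℝ)) * (1 + 8 / l) = 1 + (7 * l - 8) / l ^ 2 := by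
          field_simp; ring
        rw [this]
        have : 0 ≤ (7 * (l : ℝ) - 8) / l ^ 2 := div_nonneg (by linarith) (by positivity)
        linarith
      have b8 : (1 - 1 / (l : ℝ)) * (1 + 8 / l) ≤
          (1 - ((SS P a k l).card : ℝ) / l) * (1 + 8 / l) :=
        mul_le_mul_of_nonneg_right (by linarith) (by positivity)
      linarith
    · rw [L3 k hk, mul_one]
  · split_ifs with hk
    · have b7 : (1 : ℝ) ≤ (1 - 2 / l) * (1 + 8 / l) := by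
        have : (1 - 2 / (l : ℝ)) * (1 + 8 / l) = 1 + (6 * l - 16) / l ^ 2 := by
          field_simp; ring
        rw [this]
        have : 0 ≤ (6 * (l : ℝ) - 16) / l ^ 2 := div_nonneg (by linarith) (by positivity)
        linarith
      have b8 : (1 - 2 / (l : ℝ)) * (1 + 8 / l) ≤ (1 - (rh l : ℝ) / l) * (1 + 8 / l) :=
        mul_le_mul_of_nonneg_right (by linarith) (by positivity)
      linarith
    · rw [L3 k hk, mul_one]

private theorem prd (p w P a k : ℕ) (hp : 7 ≤ p) (hlP : ∀ l : ℕ, l.Prime → l ∣ P → l ≤ p)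
    (hL : StLOC) :
    0 ≤ VV p w ∧ 0 ≤ ∏ l ∈ QQ p w, (1 - ((SS P a k l).card : ℝ) / l) ∧
    VV p w * (2 - ∏ l ∈ (QQ p w).filter (fun l => l ∣ k), (1 + 8 / (l : ℝ))) ≤
      ∏ l ∈ QQ p w, (1 - ((SS P a k l).card : ℝ) / l) ∧
    ∏ l ∈ QQ p w, (1 - ((SS P a k l).card : ℝ) / l) ≤
      VV p w * ∏ l ∈ (QQ p w).filter (fun l => l ∣ k), (1 + 8 / (l : ℝ)) := by
  have hloc := loc p w P a k hp hlP hL
  rw [prod_filter]
  set T := ∏ l ∈ QQ p w, (if l ∣ k then (1 + 8 / (l : ℝ)) else 1) with hT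
  set X := ∏ l ∈ QQ p w, (1 - ((SS P a k l).card : ℝ) / l) with hX
  have hV0 : 0 ≤ VV p w := prod_nonneg fun l hl => (hloc l hl).2.1
  have hX0 : 0 ≤ X := prod_nonneg fun l hl => (hloc l hl).1
  have h1 : VV p w ≤ X * T := by
    rw [hX, hT, ← prod_mul_distrib]
    exact prod_le_prod (fun l hl => (hloc l hl).2.1) fun l hl => (hloc l hl).2.2.1
  have h2 : X ≤ VV p w * T := by
    rw [hX, hT, VV, ← prod_mul_distrib]
    exact prod_le_prod (fun l hl => (hloc l hl).1) fun l hl => (hloc l hl).2.2.2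
  have hT1 : 1 ≤ T := by
    rw [hT]
    calc (1 : ℝ) = ∏ l ∈ QQ p w, 1 := by simp
      _ ≤ _ := prod_le_prod (fun _ _ => zero_le_one) fun l _ => by
        split_ifs
        · have : (0 : ℝ) ≤ 8 / (l : ℝ) := by positivity
          linarith
        · exact le_refl _
  refine ⟨hV0, hX0, ?_, h2⟩
  have hTp : 0 < T := by linarith
  refine le_of_mul_le_mul_right ?_ hTp
  have h3 : VV p w * (2 - T) * T = VV p w - VV p w * (T - 1) ^ 2 := by ring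
  have h4 : 0 ≤ VV p w * (T - 1) ^ 2 := mul_nonneg hV0 (sq_nonneg _)
  linarith

theorem hMO1 (hS : StSV) (hL : StLOC) (hG : StGAB) : StMO1 := by
  intro ε h0 h1
  obtain ⟨B, hB⟩ := hS (ε / 4) (by positivity)
  obtain ⟨p₁, hp₁⟩ := hG (ε / 2) (by positivity)
  refine ⟨B, max 7 p₁, le_max_left _ _, ?_⟩
  intro p P hp hP hlP
  obtain ⟨J₀, hJ₀⟩ := hp₁ p P (le_trans (le_max_right _ _) hp) hP hlP
  have hp7 : 7 ≤ p := le_trans (le_max_left _ _) hp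
  refine ⟨max 1 J₀, le_max_left _ _, ?_⟩
  intro J a r w M hJ hr hw
  have hT := (hJ₀ J r w (le_trans (le_max_right _ _) hJ) hr).1
  rw [swp]
  have hA : ∀ j ∈ Icc 1 J, _ := fun j _ =>
    cnt p w P a (r + P * j) M hp7 hlP hw hL (ε / 4) B hB
  have hX : ∀ j ∈ Icc 1 J, _ := fun j _ => prd p w P a (r + P * j) hp7 hlP hL
  have hV : 0 ≤ VV p w := (prd p w P a 0 hp7 hlP hL).1
  push_cast at hA
  set V := VV p w with hVd
  set T : ℕ → ℝ := fun j => ∏ l ∈ (QQ p w).filter (fun l => l ∣ r + P * j), (1 + 8 / (l : ℝ))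
    with hTd
  set X : ℕ → ℝ := fun j => ∏ l ∈ QQ p w, (1 - ((SS P a (r + P * j) l).card : ℝ) / l) with hXd
  set A : ℕ → ℝ := fun j => (((Icc 1 M).filter (fun m : ℕ => ∀ l ∈ QQ p w,
      ¬ (l : ℤ) ∣ fz ((a : ℤ) + P * m) ((r : ℤ) + P * j))).card : ℝ) with hAd
  have hA' : ∀ j ∈ Icc 1 J, |A j - M * X j| ≤ ε / 4 * (M * X j) + (w : ℝ) ^ B := hA
  have hX' : ∀ j ∈ Icc 1 J, 0 ≤ V ∧ 0 ≤ X j ∧ V * (2 - T j) ≤ X j ∧ X j ≤ V * T j := hX
  have hT' : ∑ j ∈ Icc 1 J, T j ≤ (1 + ε / 2) * J := hT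
  have hcard : ((Icc 1 J).card : ℝ) = J := by rw [Nat.card_Icc]; simp
  have s1 : ∑ j ∈ Icc 1 J, X j ≤ V * ((1 + ε / 2) * J) := by
    calc _ ≤ ∑ j ∈ Icc 1 J, V * T j := sum_le_sum fun j hj => (hX' j hj).2.2.2
      _ = V * ∑ j ∈ Icc 1 J, T j := by rw [mul_sum]
      _ ≤ _ := mul_le_mul_of_nonneg_left hT' hV
  have s2 : V * ((1 - ε / 2) * J) ≤ ∑ j ∈ Icc 1 J, X j := by
    calc V * ((1 - ε / 2) * J) ≤ V * (2 * J - ∑ j ∈ Icc 1 J, T j) :=
          mul_le_mul_of_nonneg_left (by linarith) hV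
      _ = ∑ j ∈ Icc 1 J, V * (2 - T j) := by
          rw [← mul_sum, sum_sub_distrib, sum_const, nsmul_eq_mul, hcard]; ring
      _ ≤ _ := sum_le_sum fun j hj => (hX' j hj).2.2.1
  have s3 : (1 - ε / 4) * (M * ∑ j ∈ Icc 1 J, X j) - J * (w : ℝ) ^ B ≤ ∑ j ∈ Icc 1 J, A j := by
    calc _ = ∑ j ∈ Icc 1 J, ((1 - ε / 4) * (M * X j) - (w : ℝ) ^ B) := by
          rw [sum_sub_distrib, sum_const, nsmul_eq_mul, hcard, ← mul_sum, ← mul_sum]
      _ ≤ _ := sum_le_sum fun j hj => by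
          have := (abs_le.1 (hA' j hj)).1
          linarith
  have s4 : ∑ j ∈ Icc 1 J, A j ≤ (1 + ε / 4) * (M * ∑ j ∈ Icc 1 J, X j) + J * (w : ℝ) ^ B := by
    calc _ ≤ ∑ j ∈ Icc 1 J, ((1 + ε / 4) * (M * X j) + (w : ℝ) ^ B) :=
          sum_le_sum fun j hj => by
          have := (abs_le.1 (hA' j hj)).2
          linarith
      _ = _ := by
          rw [sum_add_distrib, sum_const, nsmul_eq_mul, hcard, ← mul_sum, ← mul_sum]
  have hJM : 0 ≤ (J : ℝ) * M * V := by positivity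
  have hM0 : (0 : ℝ) ≤ M := Nat.cast_nonneg _
  constructor
  · refine le_trans ?_ s3
    have h2 : (M : ℝ) * (V * ((1 - ε / 2) * J)) ≤ M * ∑ j ∈ Icc 1 J, X j :=
      mul_le_mul_of_nonneg_left s2 hM0
    have h3 : (1 - ε / 4) * ((M : ℝ) * (V * ((1 - ε / 2) * J))) ≤
        (1 - ε / 4) * (M * ∑ j ∈ Icc 1 J, X j) :=
      mul_le_mul_of_nonneg_left h2 (by linarith)
    have h4 : (1 - ε / 4) * ((M : ℝ) * (V * ((1 - ε / 2) * J))) =
        (1 - ε) * (J * M * V) + (ε / 4 + ε ^ 2 / 8) * (J * M * V) := by ring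
    have h5 : 0 ≤ (ε / 4 + ε ^ 2 / 8) * ((J : ℝ) * M * V) := mul_nonneg (by positivity) hJM
    linarith
  · refine le_trans s4 ?_
    have h2 : (M : ℝ) * ∑ j ∈ Icc 1 J, X j ≤ M * (V * ((1 + ε / 2) * J)) :=
      mul_le_mul_of_nonneg_left s1 hM0
    have h3 : (1 + ε / 4) * (M * ∑ j ∈ Icc 1 J, X j) ≤
        (1 + ε / 4) * ((M : ℝ) * (V * ((1 + ε / 2) * J))) :=
      mul_le_mul_of_nonneg_left h2 (by linarith)
    have h4 : (1 + ε / 4) * ((M : ℝ) * (V * ((1 + ε / 2) * J))) =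
        4 * (J * M * V) - (3 - 3 * ε / 4 - ε ^ 2 / 8) * (J * M * V) := by ring
    have h5 : 0 ≤ (3 - 3 * ε / 4 - ε ^ 2 / 8) * ((J : ℝ) * M * V) :=
      mul_nonneg (by nlinarith) hJM
    linarith

end Pool.Agent.Helper99.LM
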